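import Pool.Agent.Z15P.T2h59.Z15.Lin

/-!
# Lines through a fixed point `u` of `Y` and points of `X` (helper59)
-/

set_option autoImplicit false
set_option linter.all false

open FF FF.PP MvPolynomial Pool.Agent.Z15P.Z15.H Pool.Agent.Z15P.Z15.J Pool.Agent.Z15P.Z15.J.Stm

namespace Pool.Agent.Z15P.T2h59.Z15

open Pool.Agent.Z15P.Z15.S

lemma sum_deg (d m : ℕ) : ∑ j : Fin (m + 1), (if (j : ℕ) = 0 then d else (j : ℕ)) =
    d + ∑ i ∈ Finset.range (m + 1), i := by
  rw [Finset.sum_range, Fin.sum_univ_succ, Fin.sum_univ_succ]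
  simp

theorem t_S_L2i : S_L2i := by
  intro hUA hWD hCYC hCO hMIX hPEN K _ _ ι α _ _ F d m X Y hF hmd hXY hM hcard κ _ _ htr z z' u hz hz' hu
    hu0 hz0 hz0' hV hV'
  classical
  have hli : LinearIndependent κ ![z, u] := li_of_supp hXY hz hu hz0 hu0
  have hli' : LinearIndependent κ ![z', u] := li_of_supp hXY hz' hu hz0' hu0
  rcases fin_or_zero hCYC htr z u with hfin | h0
  swap
  · rw [h0]; exact zero_mem _
  have hcκ : Infinite κ := Infinite.of_injective _ (algebraMap K κ).injective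
  -- the forms
  obtain ⟨φ, hφ⟩ : ∃ φ : {i // i ∈ X} → ι → κ,
    φ = (fun n : {i // i ∈ X} => (Pi.single (n : ι) (1 : κ) : ι → κ)) := ⟨_, rfl⟩
  obtain ⟨deg, hdeg⟩ : ∃ deg : (Σ a : α, Fin (m a + 1)) → ℕ,
    deg = fun b => if (b.2 : ℕ) = 0 then d b.1 else (b.2 : ℕ) := ⟨_, rfl⟩
  choose G hG1 hG2 using fun (b : Σ a : α, Fin (m a + 1)) =>
    (hCO K ι (F b.1) (d b.1) (hF b.1)).2.2.2.2.2.2 κ {i // i ∈ X} u φ (deg b)
  have hdeg0 : ∀ b, 0 < deg b := by
    intro b
    rw [hdeg]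
    simp only
    split_ifs with h
    · exact (Nat.zero_le _).trans_lt (hmd b.1)
    · exact Nat.pos_of_ne_zero h
  have hdegle : ∀ b, deg b ≤ d b.1 := by
    intro b
    rw [hdeg]
    simp only
    split_ifs with h
    · exact le_rfl
    · have := b.2.2
      have := hmd b.1
      omega
  have hsum : ∑ b, deg b + 1 ≤ Fintype.card {i // i ∈ X} := by
    rw [Fintype.card_coe]
    refine le_trans (le_of_eq ?_) hcard
    congr 1
    rw [Fintype.sum_sigma]
    refine Finset.sum_congr rfl fun a _ => ?_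
    rw [hdeg]
    exact sum_deg (d a) (m a)
  have huF : ∀ a, aeval u (F a) = 0 := fun a => Vanish.right (hV a)
  -- points of the variety `G = 0` correspond to lines
  have hzero : ∀ w : ι → κ, Supp X w → (∀ a, Vanish (F a) w u) → ∀ b, aeval (fun n : {i // i ∈ X} => w n) (G b) = 0 := by
    intro w hw hwV b
    rw [hG2 b κ]
    have e1 := ((hCO K ι (F b.1) (d b.1) (hF b.1)).2.1 κ u w).1 (Vanish.symm (hwV b.1)) (deg b) (hdegle b)
    rw [← e1]
    congr 1
    have e2 := lm_restrict (K1 := κ) X hw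
    rw [← hφ] at e2
    exact e2
  have hgood : GoodS F G u φ := by
    have hne : ∀ (κ' : Type) [Field κ'] [Algebra κ κ'], (cst κ' u : ι → κ') ≠ 0 := by
      intro κ' _ _ h
      apply hu0
      funext i
      exact (map_eq_zero (algebraMap κ κ')).1 (congrFun h i)
    have hsu : ∀ (κ' : Type) [Field κ'] [Algebra κ κ'], Supp Y (cst κ' u : ι → κ') := by
      intro κ' _ _ i hi
      show algebraMap κ κ' (u i) = 0
      rw [hu i hi, map_zero]
    refine ⟨?_, ?_⟩
    · intro κ' _ _ e he _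
      apply li_symm
      refine li_of_supp hXY ?_ (hsu κ') ?_ (hne κ')
      · rw [hφ]; exact lm_supp X e
      · rw [hφ]; exact lm_ne X he
    · intro κ' _ _ _ _ e he a
      have hw : Supp X (lm φ e) := by rw [hφ]; exact lm_supp X e
      refine vanish_of_co hCO hMIX (hF a) hXY (hM a) (hsu κ') hw ?_ ?_ ?_
      · have h1 : aeval (cst κ' u : ι → κ') (F a) = algebraMap κ κ' (aeval u (F a)) :=
          (comp_aeval_apply _ (IsScalarTower.toAlgHom K κ κ') (F a)).symm
        rw [h1, huF, map_zero]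
      · intro j hj0 hjm
        have h1 := he ⟨a, ⟨j, by omega⟩⟩
        rw [hG2 _ κ'] at h1
        have h2 : deg ⟨a, ⟨j, by omega⟩⟩ = j := by
          rw [hdeg]; simp only; rw [if_neg (by omega)]
        rw [h2] at h1
        exact h1
      · have h1 := he ⟨a, ⟨0, by omega⟩⟩
        rw [hG2 _ κ'] at h1
        have h2 : deg ⟨a, ⟨0, by omega⟩⟩ = d a := by
          rw [hdeg]; simp
        rw [h2] at h1
        exact h1
  -- Roitman's theorem over `κ`
  have hrest : ∀ w : ι → κ, Supp X w → w ≠ 0 → (fun n : {i // i ∈ X} => w n) ≠ 0 := by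
    intro w hw hw0 h
    apply hw0
    funext i
    by_cases hi : i ∈ X
    · exact congrFun h ⟨i, hi⟩
    · exact hw i hi
  obtain ⟨N, hN, n, hNn⟩ := hPEN κ {i // i ∈ X} (Σ a : α, Fin (m a + 1)) G deg hdeg0 hG1 hsum
    (fun n => z' n) (hrest z' hz' hz0') (fun b => by
      have := hzero z' hz' hV' b
      rw [← this, ← MvPolynomial.coe_aeval_eq_eval]
      rfl)
    κ (fun n => z n) (by
      have : Algebra.IsAlgebraic κ κ := inferInstance
      rw [trdeg_eq_zero]) (hrest z hz hz0) (fun b => hzero z hz hV b)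
  obtain ⟨Φ, hΦ⟩ := hWD K κ ι {i // i ∈ X} u φ hu0
  have hmem := hUA K κ ι {i // i ∈ X} α (Σ a : α, Fin (m a + 1)) 0 isFG0 F G deg hG1 u φ hu0 hgood Φ hΦ _ hNn
  rw [zero_add, map_sub, map_nsmul, map_zsmul] at hmem
  have hΦ1 : ∀ w : ι → κ, Supp X w → w ≠ 0 → Φ (cyc κ (fun n : {i // i ∈ X} => w n)) = cyc K (gen u w) := by
    intro w hw hw0
    rw [hΦ κ (fun n => w n) (hrest w hw hw0)]
    have e2 := lm_restrict (K1 := κ) X hw
    rw [← hφ] at e2
    rw [e2]
    rfl
  rw [hΦ1 z hz hz0, hΦ1 z' hz' hz0', gen_symm hCYC hli, gen_symm hCYC hli'] at hmem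
  exact ⟨N, hN, n, hmem⟩

end Pool.Agent.Z15P.T2h59.Z15
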